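import Pool.Agent.helper11.VQ.Spec3a

/-!
# MP_07c750, project VQ, row UKZ: unrolling of composed kernels, complex valued
-/

set_option autoImplicit false

open scoped ENNReal ComplexConjugate
open MeasureTheory Filter Set

namespace Pool.Agent.VQ

noncomputable section

theorem UKZ_int {X : Type*} [MeasurableSpace X] (μ : Measure X) (f : X → ℂ) (hf : Measurable f) (B : ℝ)
    (hB : ∀ x, ‖f x‖ ≤ B) (T : Set X) (hT : μ T ≠ ⊤) (hsupp : ∀ x, f x ≠ 0 → x ∈ T) : Integrable f μ := by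
  have h1 : IntegrableOn f T μ :=
    Measure.integrableOn_of_bounded hT hf.aestronglyMeasurable (ae_of_all _ hB)
  exact (integrableOn_iff_integrable_of_support_subset (fun x hx => hsupp x hx)).1 h1

theorem UKZ_vxm {Y : Type} [MeasurableSpace Y] {n : ℕ} (h : Y) (j : ℕ) :
    Measurable fun q : Y × (Fin n → Y) => vz q.1 h q.2 j := by
  cases j with
  | zero =>
    have : (fun q : Y × (Fin n → Y) => vz q.1 h q.2 0) = fun q => q.1 := rfl
    rw [this]
    exact measurable_fst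
  | succ j =>
    by_cases hj : j < n
    · have : (fun q : Y × (Fin n → Y) => vz q.1 h q.2 (j + 1)) = fun q => q.2 ⟨j, hj⟩ := by
        funext q
        simp only [vz, dif_pos hj]
      rw [this]
      exact (measurable_pi_apply _).comp measurable_snd
    · have : (fun q : Y × (Fin n → Y) => vz q.1 h q.2 (j + 1)) = fun _ => h := by
        funext q
        simp only [vz, dif_neg hj]
      rw [this]
      exact measurable_const

/-- the product along a path -/
def UKZ_P {Y : Type} (n : ℕ) (s : ℕ → Y → Y → ℂ) (g h : Y) (v : Fin n → Y) : ℂ :=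
  ∏ j ∈ Finset.range (n + 1), s j (vz g h v j) (vz g h v (j + 1))

theorem UKZ_Pm {Y : Type} [MeasurableSpace Y] (n : ℕ) (s : ℕ → Y → Y → ℂ) (hs : ∀ j, Measurable (Function.uncurry (s j))) (h : Y) :
    Measurable fun q : Y × (Fin n → Y) => UKZ_P n s q.1 h q.2 := by
  unfold UKZ_P
  refine Finset.measurable_fun_prod _ fun j _ => ?_
  exact (hs j).comp ((UKZ_vxm h j).prodMk (UKZ_vxm h (j + 1)))

theorem UKZ_Pb {Y : Type} (n : ℕ) (s : ℕ → Y → Y → ℂ) (B : ℕ → ℝ) (hB : ∀ j g h, ‖s j g h‖ ≤ B j) (g h : Y)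
    (v : Fin n → Y) : ‖UKZ_P n s g h v‖ ≤ ∏ j ∈ Finset.range (n + 1), B j := by
  unfold UKZ_P
  rw [norm_prod]
  exact Finset.prod_le_prod (fun _ _ => norm_nonneg _) fun j _ => hB j _ _

theorem UKZ_Ps {Y : Type} (d : Y → Y → ℝ) (dt : ∀ x y z, d x z ≤ d x y + d y z) (n : ℕ) (s : ℕ → Y → Y → ℂ) (D : ℕ → ℝ) (hD0 : ∀ j, 0 ≤ D j)
    (hD : ∀ j g h, s j g h ≠ 0 → d g h ≤ D j) (g h : Y)
    (v : Fin n → Y) (hne : UKZ_P n s g h v ≠ 0) (i : Fin n) :
    d g (v i) ≤ ∑ j ∈ Finset.range (n + 1), D j := by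
  unfold UKZ_P at hne
  rw [Finset.prod_ne_zero_iff] at hne
  have key : ∀ j, j + 1 ≤ n + 1 → d g (vz g h v (j + 1)) ≤ ∑ i ∈ Finset.range (j + 1), D i := by
    intro j
    induction j with
    | zero =>
      intro _
      have h0 := hD 0 _ _ (hne 0 (Finset.mem_range.2 (by omega)))
      have h01 : ∑ i ∈ Finset.range (0 + 1), D i = D 0 := by simp
      rw [h01]
      exact h0
    | succ j ih =>
      intro hj
      rw [Finset.sum_range_succ]
      refine (dt _ (vz g h v (j + 1)) _).trans (add_le_add (ih (by omega)) ?_)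
      exact hD (j + 1) _ _ (hne (j + 1) (Finset.mem_range.2 (by omega)))
  have hi := i.2
  have h1 := key i.1 (by omega)
  have h2 : vz g h v (i.1 + 1) = v i := by
    simp only [vz, dif_pos hi]
  rw [h2] at h1
  refine h1.trans ?_
  refine Finset.sum_le_sum_of_subset_of_nonneg ?_ fun j _ _ => hD0 j
  intro j hj
  rw [Finset.mem_range] at hj ⊢
  omega

theorem UKZ_pib {Y : Type} [MeasurableSpace Y] (m : Measure Y) [SigmaFinite m] (d : Y → Y → ℝ) (vol : ∀ T : ℝ, ∃ B : ℝ, ∀ x, m {y | d x y ≤ T} ≤ ENNReal.ofReal B)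
    (n : ℕ) (g : Y) (D : ℝ) :
    mZ m n (Set.univ.pi fun _ : Fin n => {p : Y | d g p ≤ D}) ≠ ⊤ := by
  unfold mZ
  rw [Measure.pi_pi]
  obtain ⟨B, hB⟩ := vol D
  exact ENNReal.prod_ne_top fun _ _ => ((hB g).trans_lt ENNReal.ofReal_lt_top).ne

theorem UKZ_Pi {Y : Type} [MeasurableSpace Y] (m : Measure Y) [SigmaFinite m] (d : Y → Y → ℝ) (dt : ∀ x y z, d x z ≤ d x y + d y z) (vol : ∀ T : ℝ, ∃ B : ℝ, ∀ x, m {y | d x y ≤ T} ≤ ENNReal.ofReal B)
    (n : ℕ) (s : ℕ → Y → Y → ℂ) (hs : ∀ j, Measurable (Function.uncurry (s j)))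
    (B : ℕ → ℝ) (hB : ∀ j g h, ‖s j g h‖ ≤ B j) (D : ℕ → ℝ) (hD0 : ∀ j, 0 ≤ D j)
    (hD : ∀ j g h, s j g h ≠ 0 → d g h ≤ D j) (g h : Y) :
    Integrable (fun v => UKZ_P n s g h v) (mZ m n) := by
  refine UKZ_int _ _ ((UKZ_Pm n s hs h).comp measurable_prodMk_left) _ (UKZ_Pb n s B hB g h) _
    (UKZ_pib m d vol n g (∑ j ∈ Finset.range (n + 1), D j)) fun v hv => ?_
  rw [mem_univ_pi]
  intro i
  exact UKZ_Ps d dt n s D hD0 hD g h v hv i

theorem UKZ_form (hVXZ : VXZ_stmt) {Y : Type} [MeasurableSpace Y] (m : Measure Y) [SigmaFinite m] (d : Y → Y → ℝ) (dt : ∀ x y z, d x z ≤ d x y + d y z) (vol : ∀ T : ℝ, ∃ B : ℝ, ∀ x, m {y | d x y ≤ T} ≤ ENNReal.ofReal B)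
    (h : Y) (n : ℕ) : ∀ s : ℕ → Y → Y → ℂ,
    (∀ j, Measurable (Function.uncurry (s j))) → ∀ B : ℕ → ℝ, (∀ j g h, ‖s j g h‖ ≤ B j) → ∀ D : ℕ → ℝ, (∀ j, 0 ≤ D j) →
    (∀ j g h, s j g h ≠ 0 → d g h ≤ D j) → ∀ g : Y, pC m n s g h = ∫ v, UKZ_P n s g h v ∂mZ m n := by
  obtain ⟨hv2, hv3, -, hv6, -, hv8⟩ := hVXZ Y m
  induction n with
  | zero =>
    intro s hs B hB D hD0 hD g
    have h1 : ∀ v : Fin 0 → Y, UKZ_P 0 s g h v = s 0 g h := by
      intro v
      unfold UKZ_P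
      rw [zero_add, Finset.prod_range_one, (hv3 0 g h v).1, (hv3 0 g h v).2]
    simp only [h1]
    unfold mZ
    rw [Measure.pi_of_empty]
    rw [integral_const]
    show s 0 g h = _
    simp
  | succ n ih =>
    intro s hs B hB D hD0 hD g
    have hsf' : SigmaFinite (mZ m n) := hv6 n
    set s' : ℕ → Y → Y → ℂ := fun j => s (j + 1) with hs'
    have ih' := ih s' (fun j => hs (j + 1)) (fun j => B (j + 1)) (fun j => hB (j + 1)) (fun j => D (j + 1))
      (fun j => hD0 (j + 1)) (fun j => hD (j + 1))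
    set f : Y × (Fin n → Y) → ℂ := fun q => s 0 g q.1 * UKZ_P n s' q.1 h q.2 with hf
    have hfm : Measurable f := by
      refine Measurable.mul ?_ (UKZ_Pm n s' (fun j => hs (j + 1)) h)
      exact (hs 0).comp (measurable_const.prodMk measurable_fst)
    have hfb : ∀ q, ‖f q‖ ≤ B 0 * ∏ j ∈ Finset.range (n + 1), B (j + 1) := by
      intro q
      rw [hf]
      simp only []
      rw [norm_mul]
      refine mul_le_mul (hB 0 _ _) (UKZ_Pb n s' (fun j => B (j + 1)) (fun j => hB (j + 1)) _ _ _) (norm_nonneg _) ?_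
      exact (norm_nonneg _).trans (hB 0 g g)
    have hfi : Integrable f (m.prod (mZ m n)) := by
      refine UKZ_int _ f hfm _ hfb ({p : Y | d g p ≤ D 0} ×ˢ
        (Set.univ.pi fun _ : Fin n => {p : Y | d g p ≤ D 0 + ∑ j ∈ Finset.range (n + 1), D (j + 1)})) ?_ ?_
      · rw [Measure.prod_prod]
        obtain ⟨B, hB⟩ := vol (D 0)
        exact ENNReal.mul_ne_top ((hB g).trans_lt ENNReal.ofReal_lt_top).ne (UKZ_pib m d vol n g _)
      · intro q hq
        have h1 : s 0 g q.1 ≠ 0 := fun h0 => hq (by rw [hf]; simp only []; rw [h0, zero_mul])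
        have h2 : UKZ_P n s' q.1 h q.2 ≠ 0 := fun h0 => hq (by rw [hf]; simp only []; rw [h0, mul_zero])
        have h3 := hD 0 _ _ h1
        refine ⟨h3, ?_⟩
        rw [mem_univ_pi]
        intro i
        have h4 := UKZ_Ps d dt n s' (fun j => D (j + 1)) (fun j => hD0 (j + 1)) (fun j => hD (j + 1)) q.1 h q.2 h2 i
        exact (dt _ _ _).trans (add_le_add h3 h4)
    have h5 : ∀ v : Fin (n + 1) → Y, UKZ_P (n + 1) s g h v = f (v 0, fun i => v i.succ) := by
      intro v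
      unfold UKZ_P
      rw [Finset.prod_range_succ', mul_comm]
      rw [hf]
      simp only []
      unfold UKZ_P
      have h6 : vz g h v 0 = g := rfl
      have h7 : vz g h v (0 + 1) = v 0 := by
        rw [hv2 n g h v 0]
        rfl
      rw [h6, h7]
      refine congrArg₂ _ rfl (Finset.prod_congr rfl fun j _ => ?_)
      rw [hv2 n g h v j, hv2 n g h v (j + 1)]
    calc pC m (n + 1) s g h = ∫ p, s 0 g p * pC m n s' p h ∂m := rfl
      _ = ∫ p, ∫ v, f (p, v) ∂mZ m n ∂m := by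
          refine integral_congr_ae (ae_of_all _ fun p => ?_)
          simp only []
          rw [ih' p, ← integral_const_mul]
      _ = ∫ v : Fin (n + 1) → Y, f (v 0, fun i => v i.succ) ∂mZ m (n + 1) := (hv8 n f hfi).symm
      _ = ∫ v, UKZ_P (n + 1) s g h v ∂mZ m (n + 1) := by
          simp only [h5]

theorem UKZ_proof (hVXZ : VXZ_stmt) (hKPZ : KPZ_stmt) : UKZ_stmt := by
  intro Γ _ Y _ _ m D d hPS s hs n
  have hsf : SigmaFinite m := hPS.sf
  have hG : ∀ n : ℕ, ∀ s : ℕ → Y → Y → ℂ, (∀ j, KZ Γ d (s j)) → KZ Γ d (pC m n s) := by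
    intro n
    induction n with
    | zero => exact fun s hs => hs 0
    | succ n ih =>
      intro s hs
      exact ((hKPZ Γ Y m D d hPS).2 (s 0) (pC m n fun j => s (j + 1)) (hs 0) (ih _ fun j => hs (j + 1))).1
  refine ⟨hG n s hs, ?_⟩
  have hB := fun j => (hs j).bdd
  choose B hB using hB
  have hT := fun j => (hs j).range
  choose T hT using hT
  have hT' : ∀ j g h, s j g h ≠ 0 → d g h ≤ |T j| := fun j g h hne => (hT j g h hne).trans (le_abs_self _)
  intro g h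
  exact ⟨UKZ_Pi m d hPS.dt hPS.vol n s (fun j => (hs j).meas) B hB (fun j => |T j|) (fun j => abs_nonneg _) hT' g h,
    UKZ_form hVXZ m d hPS.dt hPS.vol h n s (fun j => (hs j).meas) B hB (fun j => |T j|) (fun j => abs_nonneg _) hT' g⟩

end

end Pool.Agent.VQ
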