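import Pool.Agent.helper80.VQ.SpecFL

/-! # Row vq:TAN (MP_07c750_an): the derivatives of the extensions in the directions tangent to `l SL(2, ℝ)` -/

set_option autoImplicit false

open scoped MatrixGroups ContDiff Topology UpperHalfPlane ComplexConjugate ENNReal
open UpperHalfPlane MeasureTheory Filter Set

namespace Pool.Agent.VQ

open Pool.Agent.RS
open Pool.Agent.VQE (nm)

/-- the curve through `g` in the direction `g * [[x/2, b], [c, -x/2]]` -/
theorem TAN_curve (g : SL(2, ℝ)) (x b c : ℝ) : ∃ γ : ℝ → SL(2, ℝ), γ 0 = g ∧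
    ∀ i j, HasDerivAt (fun s => (γ s).1 i j) ((g.1 * !![x / 2, b; c, -(x / 2)]) i j) 0 := by
  refine ⟨fun s => g * nM (b * s) * lM (c * s) * aM (x * s), ?_, ?_⟩
  · have h1 : nM (b * 0) = 1 := by
      ext i j
      fin_cases i <;> fin_cases j <;> simp [nM]
    have h2 : lM (c * 0) = 1 := by
      ext i j
      fin_cases i <;> fin_cases j <;> simp [lM]
    have h3 : aM (x * 0) = 1 := by
      ext i j
      fin_cases i <;> fin_cases j <;> simp [aM]
    simp only [h1, h2, h3, mul_one]
  · have e1 : HasDerivAt (fun s : ℝ => Real.exp (x * s / 2)) (x / 2) 0 := by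
      have h : HasDerivAt (fun s : ℝ => x * s / 2) (x / 2) 0 := by
        have h0 := ((hasDerivAt_id (0 : ℝ)).const_mul x).div_const 2
        simpa using h0
      have h1 := h.exp
      simpa using h1
    have e2 : HasDerivAt (fun s : ℝ => Real.exp (-(x * s / 2))) (-(x / 2)) 0 := by
      have h : HasDerivAt (fun s : ℝ => -(x * s / 2)) (-(x / 2)) 0 := by
        have h0 : HasDerivAt (fun s : ℝ => x * s / 2) (x / 2) 0 := by
          have h00 := ((hasDerivAt_id (0 : ℝ)).const_mul x).div_const 2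
          simpa using h00
        exact h0.fun_neg
      have h1 := h.exp
      simpa using h1
    have b1 : HasDerivAt (fun s : ℝ => b * s) b 0 := by
      simpa using (hasDerivAt_id (0 : ℝ)).const_mul b
    have c1 : HasDerivAt (fun s : ℝ => c * s) c 0 := by
      simpa using (hasDerivAt_id (0 : ℝ)).const_mul c
    have key : ∀ s : ℝ, ∀ i j, ((g * nM (b * s) * lM (c * s) * aM (x * s) : SL(2, ℝ))).1 i j =
        (g.1 i 0 * (!![(1 + (b * s) * (c * s)) * Real.exp (x * s / 2), (b * s) * Real.exp (-(x * s / 2));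
          (c * s) * Real.exp (x * s / 2), Real.exp (-(x * s / 2))] : Matrix (Fin 2) (Fin 2) ℝ) 0 j +
        g.1 i 1 * (!![(1 + (b * s) * (c * s)) * Real.exp (x * s / 2), (b * s) * Real.exp (-(x * s / 2));
          (c * s) * Real.exp (x * s / 2), Real.exp (-(x * s / 2))] : Matrix (Fin 2) (Fin 2) ℝ) 1 j) := by
      intro s i j
      have h : ((g * nM (b * s) * lM (c * s) * aM (x * s) : SL(2, ℝ))).1 = g.1 *
          (!![(1 + (b * s) * (c * s)) * Real.exp (x * s / 2), (b * s) * Real.exp (-(x * s / 2));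
          (c * s) * Real.exp (x * s / 2), Real.exp (-(x * s / 2))] : Matrix (Fin 2) (Fin 2) ℝ) := by
        show g.1 * (nM (b * s)).1 * (lM (c * s)).1 * (aM (x * s)).1 = _
        rw [Matrix.mul_assoc, Matrix.mul_assoc]
        congr 1
        simp only [nM, lM, aM, Matrix.mul_fin_two]
        ext i j
        fin_cases i <;> fin_cases j <;> simp <;> ring
      rw [h, Matrix.mul_apply, Fin.sum_univ_two]
    have hM : ∀ i j, HasDerivAt (fun s : ℝ => (!![(1 + (b * s) * (c * s)) * Real.exp (x * s / 2), (b * s) * Real.exp (-(x * s / 2));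
          (c * s) * Real.exp (x * s / 2), Real.exp (-(x * s / 2))] : Matrix (Fin 2) (Fin 2) ℝ) i j)
        ((!![x / 2, b; c, -(x / 2)] : Matrix (Fin 2) (Fin 2) ℝ) i j) 0 := by
      intro i j
      fin_cases i <;> fin_cases j
      · have h := (((b1.mul c1).const_add 1).mul e1)
        refine (h.congr_deriv ?_).congr_of_eventuallyEq (Eventually.of_forall fun s => ?_)
        · simp
        · simp
      · have h := b1.mul e2
        refine (h.congr_deriv ?_).congr_of_eventuallyEq (Eventually.of_forall fun s => ?_)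
        · simp
        · simp
      · have h := c1.mul e1
        refine (h.congr_deriv ?_).congr_of_eventuallyEq (Eventually.of_forall fun s => ?_)
        · simp
        · simp
      · refine (e2.congr_deriv ?_).congr_of_eventuallyEq (Eventually.of_forall fun s => ?_)
        · simp
        · simp
    intro i j
    have h1 := ((hM 0 j).const_mul (g.1 i 0)).add ((hM 1 j).const_mul (g.1 i 1))
    refine (h1.congr_deriv ?_).congr_of_eventuallyEq (Eventually.of_forall fun s => ?_)
    · rw [Matrix.mul_apply, Fin.sum_univ_two]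
    · exact key s i j

/-- the chain rule -/
theorem TAN_chain (f : F4 × ℝ → ℝ) (hf : ContDiff ℝ ∞ f) (E l x b c : ℝ) (g : SL(2, ℝ)) (γ : ℝ → SL(2, ℝ)) (h0 : γ 0 = g)
    (hγ : ∀ i j, HasDerivAt (fun s => (γ s).1 i j) ((g.1 * !![x / 2, b; c, -(x / 2)]) i j) 0) (F : SL(2, ℝ) → ℝ) (d : ℝ)
    (hF : ∀ h : SL(2, ℝ), f (l • m4 h, E) = F h) (hd : HasDerivAt (fun s => F (γ s)) d 0) :
    fderiv ℝ f (l • m4 g, E) (l • mu4 (m4 g) (x / 2) b c, 0) = d := by
  have h1 : HasDerivAt (fun s => m4 (γ s)) (mu4 (m4 g) (x / 2) b c) 0 := by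
    rw [hasDerivAt_pi]
    have h00 := hγ 0 0
    have h01 := hγ 0 1
    have h10 := hγ 1 0
    have h11 := hγ 1 1
    rw [Matrix.mul_apply, Fin.sum_univ_two] at h00 h01 h10 h11
    intro i
    fin_cases i
    · refine h00.congr_deriv ?_
      simp [mu4, m4]
    · refine h01.congr_deriv ?_
      simp [mu4, m4]
      ring
    · refine h10.congr_deriv ?_
      simp [mu4, m4]
    · refine h11.congr_deriv ?_
      simp [mu4, m4]
      ring
  have h2 : HasDerivAt (fun s => ((l • m4 (γ s), E) : F4 × ℝ)) (l • mu4 (m4 g) (x / 2) b c, 0) 0 :=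
    (h1.const_smul l).prodMk (hasDerivAt_const (0 : ℝ) E)
  have h3 : HasFDerivAt f (fderiv ℝ f (l • m4 g, E)) (l • m4 (γ 0), E) := by
    rw [h0]
    exact (hf.differentiable (by simp) _).hasFDerivAt
  have h4 := h3.comp_hasDerivAt (0 : ℝ) h2
  have h5 : HasDerivAt (fun s => F (γ s)) (fderiv ℝ f (l • m4 g, E) (l • mu4 (m4 g) (x / 2) b c, 0)) 0 := by
    refine h4.congr_of_eventuallyEq (Eventually.of_forall fun s => ?_)
    exact (hF (γ s)).symm
  exact h5.unique hd

theorem TAN_proof (hVDG : VDG_stmt) : TAN_stmt := by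
  intro Γ e C B U ρ κ hU hEx E l x b c g hE hl1 hl2
  obtain ⟨γ, h0, hγ⟩ := TAN_curve g x b c
  have hpos : 0 < U (γ 0 • I) + 2 * E := by
    have h1 := hU.lo (γ 0 • I)
    have h2 := hU.pos
    have h3 := (abs_le.1 hE).1
    linarith
  have hγ' : ∀ i j, HasDerivAt (fun s => (γ s).1 i j) (((γ 0).1 * !![x / 2, b; c, -(x / 2)]) i j) 0 := by
    rw [h0]
    exact hγ
  obtain ⟨-, -, -, h4, h5⟩ := hVDG U hU.smooth γ 0 x b c E hpos hγ'
  rw [h0] at h4 h5
  exact ⟨TAN_chain ρ hEx.sr E l x b c g γ h0 hγ (rho U E) _ (fun h => (hEx.eq E l h hE hl1 hl2).1) h4,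
    TAN_chain κ hEx.sk E l x b c g γ h0 hγ (kap U E) _ (fun h => (hEx.eq E l h hE hl1 hl2).2) h5⟩

end Pool.Agent.VQ
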