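import Pool.Agent.helper80.VQ.SpecFL

/-! # Row vq:FLG (MP_07c750_an): Gronwall's lemma for two orbits and two energies -/

set_option autoImplicit false

open scoped MatrixGroups ContDiff Topology UpperHalfPlane ComplexConjugate ENNReal
open UpperHalfPlane MeasureTheory Filter Set

namespace Pool.Agent.VQ

open Pool.Agent.RS
open Pool.Agent.VQE (nm)

/-- `nr` in terms of `nm` -/
theorem FLG_nm (η : ℝ) (x : SL(2, ℝ)) : EN.nr η x ↔ nm x < η := by
  unfold EN.nr nm
  constructor
  · intro h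
    have h00 := h 0 0
    have h01 := h 0 1
    have h10 := h 1 0
    have h11 := h 1 1
    simp only [Matrix.one_apply_eq, ne_eq, zero_ne_one, not_false_eq_true, Matrix.one_apply_ne,
      one_ne_zero, sub_zero] at h00 h01 h10 h11
    exact max_lt (max_lt h00 h01) (max_lt h10 h11)
  · intro h i j
    obtain ⟨h1, h2⟩ := max_lt_iff.1 h
    obtain ⟨h00, h01⟩ := max_lt_iff.1 h1
    obtain ⟨h10, h11⟩ := max_lt_iff.1 h2
    fin_cases i <;> fin_cases j <;>
      simp only [Fin.zero_eta, Fin.mk_one, Fin.isValue, Matrix.one_apply_eq, ne_eq, zero_ne_one,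
        not_false_eq_true, Matrix.one_apply_ne, one_ne_zero, sub_zero] <;> assumption

theorem FLG_proof (hGRW : GRW_stmt) (hPGV : PGV_stmt) : FLG_stmt := by
  intro Γ hΓ
  obtain ⟨C, hC1, hC⟩ := hGRW (1 / 8) (11 / 10) (by norm_num)
  refine ⟨1 / 10, C + 2, 1, by norm_num, by linarith, by norm_num, ?_⟩
  intro B D hD E E' t η g g' hE hE' hη hnr hEE hsm
  have hG := hPGV.2.1 Γ (1 / 10) B D hD le_rfl
  have h1 := hC Γ (Bx B) D (by simp [Bx]) (by simp [Bx]) (by simp [Bx]) hG E E' t g g' hE hE'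
  rw [FLG_nm] at hnr ⊢
  have h2 : |E' - E| ≤ η := by rw [abs_sub_comm]; exact hEE
  have h3 : Real.exp (C * |t|) ≤ Real.exp ((C + 2) * |t|) := by
    apply Real.exp_le_exp.2
    have := abs_nonneg t
    nlinarith
  have h4 : 0 < Real.exp (C * |t|) := Real.exp_pos _
  calc nm ((D.fl E t g)⁻¹ * D.fl E' t g') ≤ (nm (g⁻¹ * g') + |E' - E|) * Real.exp (C * |t|) := h1
    _ < (2 * η) * Real.exp (C * |t|) := by
        apply mul_lt_mul_of_pos_right _ h4
        linarith
    _ ≤ (2 * η) * Real.exp ((C + 2) * |t|) := by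
        apply mul_le_mul_of_nonneg_left h3
        linarith
    _ ≤ (C + 2) * η * Real.exp ((C + 2) * |t|) := by
        apply mul_le_mul_of_nonneg_right _ (Real.exp_pos _).le
        nlinarith

end Pool.Agent.VQ
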